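import Pool.Agent.H66.L.S8.H779R2.An.Defs

set_option autoImplicit false

namespace Pool.Agent.H779R2.An

open Pool.Agent.H721R2 Filter Topology

variable {X E : Type*} [MetricSpace X] [NormedAddCommGroup E] [NormedSpace ℝ E]

section iter

theorem iter_symm_iter (S : HypSys X E) (n : ℕ) (x : X) : S.g.symm^[n] (S.g^[n] x) = x :=
  (Function.LeftInverse.iterate S.g.symm_apply_apply n) x

theorem iter_iter_symm (S : HypSys X E) (n : ℕ) (x : X) : S.g^[n] (S.g.symm^[n] x) = x :=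
  (Function.LeftInverse.iterate S.g.apply_symm_apply n) x

theorem iter_symm_iter_le (S : HypSys X E) {m n : ℕ} (h : m ≤ n) (x : X) :
    S.g^[m] (S.g.symm^[n] x) = S.g.symm^[n - m] x := by
  obtain ⟨k, rfl⟩ := Nat.exists_eq_add_of_le h
  rw [Function.iterate_add_apply, iter_iter_symm, Nat.add_sub_cancel_left]

theorem iter_symm_iter_ge (S : HypSys X E) {m n : ℕ} (h : n ≤ m) (x : X) :
    S.g^[m] (S.g.symm^[n] x) = S.g^[m - n] x := by
  obtain ⟨k, rfl⟩ := Nat.exists_eq_add_of_le h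
  rw [add_comm n k, Function.iterate_add_apply, iter_iter_symm, Nat.add_sub_cancel]

theorem symm_iter_iter_le (S : HypSys X E) {m n : ℕ} (h : m ≤ n) (x : X) :
    S.g.symm^[m] (S.g^[n] x) = S.g^[n - m] x := by
  obtain ⟨k, rfl⟩ := Nat.exists_eq_add_of_le h
  rw [Function.iterate_add_apply, iter_symm_iter, Nat.add_sub_cancel_left]

theorem symm_iter_iter_ge (S : HypSys X E) {m n : ℕ} (h : n ≤ m) (x : X) :
    S.g.symm^[m] (S.g^[n] x) = S.g.symm^[m - n] x := by
  obtain ⟨k, rfl⟩ := Nat.exists_eq_add_of_le h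
  rw [add_comm n k, Function.iterate_add_apply, iter_symm_iter, Nat.add_sub_cancel]

end iter

section Dn

@[simp] theorem Dn_zero (S : HypSys X E) (x : X) (v : E) : Dn S 0 x v = v := rfl

theorem Dn_succ (S : HypSys X E) (n : ℕ) (x : X) (v : E) :
    Dn S (n + 1) x v = S.D (S.g^[n] x) (Dn S n x v) := rfl

theorem Dn_succ' (S : HypSys X E) (n : ℕ) (x : X) (v : E) :
    Dn S (n + 1) x v = Dn S n (S.g x) (S.D x v) := by
  induction n with
  | zero => rfl
  | succ n ih =>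
    rw [Dn_succ, ih, Dn_succ, Function.iterate_succ_apply]

theorem Dn_add (S : HypSys X E) (m n : ℕ) (x : X) (v : E) :
    Dn S (m + n) x v = Dn S m (S.g^[n] x) (Dn S n x v) := by
  induction m with
  | zero => rw [Nat.zero_add]; rfl
  | succ m ih =>
    rw [show m + 1 + n = (m + n) + 1 by ring, Dn_succ, ih, Dn_succ, Function.iterate_add_apply]

theorem Dn_mem (S : HypSys X E) (n : ℕ) (x : X) {v : E} (hv : v ∈ S.Vu x) :
    Dn S n x v ∈ S.Vu (S.g^[n] x) := by
  induction n with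
  | zero => exact hv
  | succ n ih =>
    rw [Dn_succ, Function.iterate_succ_apply']
    exact S.mapU _ _ ih

theorem Dn_mem_s (S : HypSys X E) (n : ℕ) (x : X) {v : E} (hv : v ∈ S.Vs x) :
    Dn S n x v ∈ S.Vs (S.g^[n] x) := by
  induction n with
  | zero => exact hv
  | succ n ih =>
    rw [Dn_succ, Function.iterate_succ_apply']
    exact S.mapS _ _ ih

theorem Dn_symm_mem (S : HypSys X E) (n : ℕ) (x : X) {v : E} (hv : v ∈ S.Vu x) :
    Dn S.symm n x v ∈ S.Vu (S.g.symm^[n] x) := Dn_mem_s S.symm n x hv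

theorem Dn_symm_Dn (S : HypSys X E) (n : ℕ) (x : X) {v : E} (hv : v ∈ S.Vu x) :
    Dn S.symm n (S.g^[n] x) (Dn S n x v) = v := by
  induction n with
  | zero => rfl
  | succ n ih =>
    rw [Dn_succ', Dn_succ, Function.iterate_succ_apply']
    change Dn S.symm n (S.g.symm (S.g (S.g^[n] x))) (S.D' (S.g (S.g^[n] x)) (S.D (S.g^[n] x)
      (Dn S n x v))) = v
    rw [S.invU _ _ (Dn_mem S n x hv), Homeomorph.symm_apply_apply, ih]

theorem Dn_Dn_symm (S : HypSys X E) (n : ℕ) (x : X) {v : E} (hv : v ∈ S.Vu x) :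
    Dn S n (S.g.symm^[n] x) (Dn S.symm n x v) = v := by
  induction n with
  | zero => rfl
  | succ n ih =>
    rw [Dn_succ', Dn_succ, Function.iterate_succ_apply']
    change Dn S n (S.g (S.g.symm (S.g.symm^[n] x))) (S.D (S.g.symm (S.g.symm^[n] x))
      (S.D' (S.g.symm^[n] x) (Dn S.symm n x v))) = v
    rw [S.invU' _ _ (Dn_symm_mem S n x hv), Homeomorph.apply_symm_apply, ih]

theorem Dn_le (S : HypSys X E) (n : ℕ) (x : X) {v : E} (hv : v ∈ S.Vu x) :
    ‖Dn S n x v‖ ≤ S.Lu ^ n * ‖v‖ := by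
  induction n with
  | zero => simp
  | succ n ih =>
    rw [Dn_succ, pow_succ]
    have h1 := S.boundU _ _ (Dn_mem S n x hv)
    have h2 : 0 ≤ S.Lu := by linarith [S.one_le_Lu]
    calc _ ≤ S.Lu * ‖Dn S n x v‖ := h1
      _ ≤ S.Lu * (S.Lu ^ n * ‖v‖) := mul_le_mul_of_nonneg_left ih h2
      _ = _ := by ring

theorem Dn_symm_le (S : HypSys X E) (n : ℕ) (x : X) {v : E} (hv : v ∈ S.Vu x) :
    ‖Dn S.symm n x v‖ ≤ (1 / 16) ^ n * ‖v‖ := by
  induction n with
  | zero => simp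
  | succ n ih =>
    rw [Dn_succ, pow_succ]
    have h1 := S.contrU _ _ (Dn_symm_mem S n x hv)
    have h2 := S.b_le
    have h3 : S.b * ‖Dn S.symm n x v‖ ≤ 1 / 16 * ‖Dn S.symm n x v‖ :=
      mul_le_mul_of_nonneg_right h2 (norm_nonneg _)
    calc _ ≤ S.b * ‖Dn S.symm n x v‖ := h1
      _ ≤ 1 / 16 * ‖Dn S.symm n x v‖ := h3
      _ ≤ 1 / 16 * ((1 / 16) ^ n * ‖v‖) := mul_le_mul_of_nonneg_left ih (by norm_num)
      _ = _ := by ring

theorem le_Dn (S : HypSys X E) (n : ℕ) (x : X) {v : E} (hv : v ∈ S.Vu x) :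
    16 ^ n * ‖v‖ ≤ ‖Dn S n x v‖ := by
  have h1 := Dn_symm_le S n (S.g^[n] x) (Dn_mem S n x hv)
  rw [Dn_symm_Dn S n x hv] at h1
  have h2 : (16 : ℝ) ^ n * ‖v‖ ≤ 16 ^ n * ((1 / 16) ^ n * ‖Dn S n x v‖) :=
    mul_le_mul_of_nonneg_left h1 (by positivity)
  have h3 : (16 : ℝ) ^ n * ((1 / 16) ^ n * ‖Dn S n x v‖) = ‖Dn S n x v‖ := by
    rw [← mul_assoc, ← mul_pow]; norm_num
  linarith

theorem le_Dn_symm (S : HypSys X E) (n : ℕ) (x : X) {v : E} (hv : v ∈ S.Vu x) :
    ‖v‖ ≤ S.Lu ^ n * ‖Dn S.symm n x v‖ := by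
  have h1 := Dn_le S n (S.g.symm^[n] x) (Dn_symm_mem S n x hv)
  rwa [Dn_Dn_symm S n x hv] at h1

theorem Dn_eq_zero (S : HypSys X E) (n : ℕ) (x : X) {v : E} (hv : v ∈ S.Vu x)
    (h : Dn S n x v = 0) : v = 0 := by
  have := Dn_symm_Dn S n x hv
  rw [h, map_zero] at this
  exact this.symm

theorem Dn_symm_eq_zero (S : HypSys X E) (n : ℕ) (x : X) {v : E} (hv : v ∈ S.Vu x)
    (h : Dn S.symm n x v = 0) : v = 0 := by
  have := Dn_Dn_symm S n x hv
  rw [h, map_zero] at this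
  exact this.symm

theorem QC.back {S : HypSys X E} {K : ℝ} (h : QC S K) (n : ℕ) (x : X) {v w : E}
    (hv : v ∈ S.Vu x) (hw : w ∈ S.Vu x) :
    ‖Dn S.symm n x v‖ * ‖w‖ ≤ K * (‖Dn S.symm n x w‖ * ‖v‖) := by
  have h1 := h n (S.g.symm^[n] x) _ (Dn_symm_mem S n x hw) _ (Dn_symm_mem S n x hv)
  rw [Dn_Dn_symm S n x hw, Dn_Dn_symm S n x hv] at h1
  calc _ = ‖w‖ * ‖Dn S.symm n x v‖ := by ring
    _ ≤ K * (‖v‖ * ‖Dn S.symm n x w‖) := h1
    _ = _ := by ring

/-- A vector whose backward iterates are infinitesimal relative to those of two fixed vectors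
vanishes. -/
theorem null_back {S : HypSys X E} {K : ℝ} (hK : QC S K) (x : X) {δ a b : E}
    (hδ : δ ∈ S.Vu x) (ha : a ∈ S.Vu x) (hb : b ∈ S.Vu x)
    (h : ∀ η > 0, ∃ n : ℕ, ‖Dn S.symm n x δ‖ ≤
      η * (‖Dn S.symm n x a‖ + ‖Dn S.symm n x b‖)) : δ = 0 := by
  by_contra hne
  have hδ0 : 0 < ‖δ‖ := norm_pos_iff.mpr hne
  set M := |K| * (‖a‖ + ‖b‖) + 1 with hM
  have hM0 : 0 < M := by positivity
  obtain ⟨n, hn⟩ := h (‖δ‖ / (2 * M)) (by positivity)
  have h1 := hK.back n x ha hδ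
  have h2 := hK.back n x hb hδ
  set p := ‖Dn S.symm n x a‖ + ‖Dn S.symm n x b‖ with hp
  have hp0 : 0 ≤ p := by positivity
  set d := ‖Dn S.symm n x δ‖ with hd
  have hd0 : 0 ≤ d := norm_nonneg _
  have h3 : p * ‖δ‖ ≤ |K| * (‖a‖ + ‖b‖) * d := by
    have h4 : K * (d * ‖a‖) ≤ |K| * (d * ‖a‖) :=
      mul_le_mul_of_nonneg_right (le_abs_self K) (by positivity)
    have h5 : K * (d * ‖b‖) ≤ |K| * (d * ‖b‖) :=
      mul_le_mul_of_nonneg_right (le_abs_self K) (by positivity)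
    rw [hp]
    linarith
  have h4 : |K| * (‖a‖ + ‖b‖) * d ≤ M * d := mul_le_mul_of_nonneg_right (by linarith) hd0
  have h5 : M * d ≤ M * (‖δ‖ / (2 * M) * p) := mul_le_mul_of_nonneg_left hn hM0.le
  have h6 : M * (‖δ‖ / (2 * M) * p) = 1 / 2 * (p * ‖δ‖) := by field_simp
  have h7 : p * ‖δ‖ ≤ 0 := by linarith
  have h8 : p = 0 := by
    by_contra hpne
    have : 0 < p := lt_of_le_of_ne hp0 (Ne.symm hpne)
    have : 0 < p * ‖δ‖ := by positivity
    linarith
  rw [h8, mul_zero] at hn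
  have h9 : Dn S.symm n x δ = 0 := norm_le_zero_iff.mp hn
  exact hne (Dn_symm_eq_zero S n x hδ h9)

/-- Forward version. -/
theorem null_fwd {S : HypSys X E} {K : ℝ} (hK : QC S K) (x : X) {δ a b : E}
    (hδ : δ ∈ S.Vu x) (ha : a ∈ S.Vu x) (hb : b ∈ S.Vu x)
    (h : ∀ η > 0, ∃ n : ℕ, ‖Dn S n x δ‖ ≤
      η * (‖Dn S n x a‖ + ‖Dn S n x b‖)) : δ = 0 := by
  by_contra hne
  have hδ0 : 0 < ‖δ‖ := norm_pos_iff.mpr hne
  set M := |K| * (‖a‖ + ‖b‖) + 1 with hM
  have hM0 : 0 < M := by positivity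
  obtain ⟨n, hn⟩ := h (‖δ‖ / (2 * M)) (by positivity)
  have h1 := hK n x a ha δ hδ
  have h2 := hK n x b hb δ hδ
  set p := ‖Dn S n x a‖ + ‖Dn S n x b‖ with hp
  have hp0 : 0 ≤ p := by positivity
  set d := ‖Dn S n x δ‖ with hd
  have hd0 : 0 ≤ d := norm_nonneg _
  have h3 : p * ‖δ‖ ≤ |K| * (‖a‖ + ‖b‖) * d := by
    have h4 : K * (d * ‖a‖) ≤ |K| * (d * ‖a‖) :=
      mul_le_mul_of_nonneg_right (le_abs_self K) (by positivity)
    have h5 : K * (d * ‖b‖) ≤ |K| * (d * ‖b‖) :=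
      mul_le_mul_of_nonneg_right (le_abs_self K) (by positivity)
    rw [hp]
    linarith
  have h4 : |K| * (‖a‖ + ‖b‖) * d ≤ M * d := mul_le_mul_of_nonneg_right (by linarith) hd0
  have h5 : M * d ≤ M * (‖δ‖ / (2 * M) * p) := mul_le_mul_of_nonneg_left hn hM0.le
  have h6 : M * (‖δ‖ / (2 * M) * p) = 1 / 2 * (p * ‖δ‖) := by field_simp
  have h7 : p * ‖δ‖ ≤ 0 := by linarith
  have h8 : p = 0 := by
    by_contra hpne
    have : 0 < p := lt_of_le_of_ne hp0 (Ne.symm hpne)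
    have : 0 < p * ‖δ‖ := by positivity
    linarith
  rw [h8, mul_zero] at hn
  have h9 : Dn S n x δ = 0 := norm_le_zero_iff.mp hn
  exact hne (Dn_eq_zero S n x hδ h9)

end Dn

section asym

theorem UAsym.refl (S : HypSys X E) (x : X) : UAsym S x x := by
  simp [UAsym]

theorem UAsym.symm {S : HypSys X E} {x y : X} (h : UAsym S x y) : UAsym S y x := by
  have h1 : (fun n : ℕ => dist (S.g.symm^[n] y) (S.g.symm^[n] x)) =
      (fun n : ℕ => dist (S.g.symm^[n] x) (S.g.symm^[n] y)) := by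
    funext n; exact dist_comm _ _
  unfold UAsym
  rw [h1]
  exact h

theorem UAsym.trans {S : HypSys X E} {x y z : X} (h : UAsym S x y) (h' : UAsym S y z) :
    UAsym S x z := by
  have h1 := Filter.Tendsto.add h h'
  rw [add_zero] at h1
  exact squeeze_zero (fun _ => dist_nonneg) (fun n => dist_triangle _ _ _) h1

theorem UAsym.symm_map {S : HypSys X E} {x y : X} (h : UAsym S x y) :
    UAsym S (S.g.symm x) (S.g.symm y) := by
  have h1 := (tendsto_add_atTop_iff_nat 1).mpr h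
  refine h1.congr (fun n => ?_)
  rw [Function.iterate_succ_apply, Function.iterate_succ_apply]

theorem UAsym.map {S : HypSys X E} {x y : X} (h : UAsym S x y) : UAsym S (S.g x) (S.g y) := by
  unfold UAsym
  rw [← tendsto_add_atTop_iff_nat 1]
  refine h.congr (fun n => ?_)
  rw [Function.iterate_succ_apply, Function.iterate_succ_apply, Homeomorph.symm_apply_apply,
    Homeomorph.symm_apply_apply]

theorem UAsym.iter {S : HypSys X E} {x y : X} (h : UAsym S x y) (n : ℕ) :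
    UAsym S (S.g^[n] x) (S.g^[n] y) := by
  induction n with
  | zero => exact h
  | succ n ih =>
    rw [Function.iterate_succ_apply', Function.iterate_succ_apply']
    exact ih.map

theorem UAsym.symm_iter {S : HypSys X E} {x y : X} (h : UAsym S x y) (n : ℕ) :
    UAsym S (S.g.symm^[n] x) (S.g.symm^[n] y) := by
  induction n with
  | zero => exact h
  | succ n ih =>
    rw [Function.iterate_succ_apply', Function.iterate_succ_apply']
    exact ih.symm_map

theorem UAsym.of_symm_iter {S : HypSys X E} {x y : X} (n : ℕ)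
    (h : UAsym S (S.g.symm^[n] x) (S.g.symm^[n] y)) : UAsym S x y := by
  have := h.iter n
  rwa [iter_iter_symm, iter_iter_symm] at this

theorem UAsym.of_iter {S : HypSys X E} {x y : X} (n : ℕ)
    (h : UAsym S (S.g^[n] x) (S.g^[n] y)) : UAsym S x y := by
  have := h.symm_iter n
  rwa [iter_symm_iter, iter_symm_iter] at this

theorem UAsym.eventually {S : HypSys X E} {x y : X} (h : UAsym S x y) {ε : ℝ} (hε : 0 < ε) :
    ∃ N : ℕ, ∀ n, N ≤ n → S.URel ε (S.g.symm^[n] x) (S.g.symm^[n] y) := by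
  obtain ⟨N, hN⟩ := (Metric.tendsto_atTop.mp h) ε hε
  refine ⟨N, fun n hn k => ?_⟩
  have h1 := hN (k + n) (by omega)
  rw [Real.dist_eq, sub_zero, abs_of_nonneg dist_nonneg] at h1
  rw [← Function.iterate_add_apply, ← Function.iterate_add_apply]
  exact h1.le

theorem SAsym.refl (S : HypSys X E) (x : X) : SAsym S x x := UAsym.refl S.symm x

theorem SAsym.symm {S : HypSys X E} {x y : X} (h : SAsym S x y) : SAsym S y x :=
  UAsym.symm (S := S.symm) h

theorem SAsym.trans {S : HypSys X E} {x y z : X} (h : SAsym S x y) (h' : SAsym S y z) :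
    SAsym S x z := UAsym.trans (S := S.symm) h h'

theorem SAsym.map {S : HypSys X E} {x y : X} (h : SAsym S x y) : SAsym S (S.g x) (S.g y) :=
  UAsym.symm_map (S := S.symm) h

theorem SAsym.symm_map {S : HypSys X E} {x y : X} (h : SAsym S x y) :
    SAsym S (S.g.symm x) (S.g.symm y) := UAsym.map (S := S.symm) h

theorem SAsym.iter {S : HypSys X E} {x y : X} (h : SAsym S x y) (n : ℕ) :
    SAsym S (S.g^[n] x) (S.g^[n] y) := UAsym.symm_iter (S := S.symm) h n

theorem SAsym.symm_iter {S : HypSys X E} {x y : X} (h : SAsym S x y) (n : ℕ) :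
    SAsym S (S.g.symm^[n] x) (S.g.symm^[n] y) := UAsym.iter (S := S.symm) h n

theorem SAsym.of_iter {S : HypSys X E} {x y : X} (n : ℕ)
    (h : SAsym S (S.g^[n] x) (S.g^[n] y)) : SAsym S x y := by
  have := h.symm_iter n
  rwa [iter_symm_iter, iter_symm_iter] at this

theorem SAsym.of_symm_iter {S : HypSys X E} {x y : X} (n : ℕ)
    (h : SAsym S (S.g.symm^[n] x) (S.g.symm^[n] y)) : SAsym S x y := by
  have := h.iter n
  rwa [iter_iter_symm, iter_iter_symm] at this

theorem SAsym.eventually {S : HypSys X E} {x y : X} (h : SAsym S x y) {ε : ℝ} (hε : 0 < ε) :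
    ∃ N : ℕ, ∀ n, N ≤ n → S.SRel ε (S.g^[n] x) (S.g^[n] y) :=
  UAsym.eventually (S := S.symm) h hε

end asym

section geo

theorem exists_geo [CompactSpace X] (S : HypSys X E) : ∃ ε₀, Geo S ε₀ := by
  obtain ⟨ε₁, hε₁, h1⟩ := S.contraction_iter (1 / 8) (by linarith [S.a_le])
  obtain ⟨ε₂, hε₂, h2⟩ := S.symm.contraction_iter (1 / 8) (by
    have := S.b_le
    change S.b < 1 / 8
    linarith)
  have hlim : ∀ c : ℝ, Tendsto (fun n : ℕ => (1 / 8 : ℝ) ^ n * c) atTop (𝓝 0) := by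
    intro c
    have := (tendsto_pow_atTop_nhds_zero_of_lt_one (by norm_num : (0 : ℝ) ≤ 1 / 8)
      (by norm_num)).mul_const c
    simpa using this
  have hu : ∀ x y, S.URel (min ε₁ ε₂) x y → ∀ k : ℕ,
      dist (S.g.symm^[k] x) (S.g.symm^[k] y) ≤ (1 / 8) ^ k * dist x y := fun x y h =>
    h2 x y (fun k => (h k).trans (min_le_right _ _))
  have hs : ∀ x y, S.SRel (min ε₁ ε₂) x y → ∀ k : ℕ,
      dist (S.g^[k] x) (S.g^[k] y) ≤ (1 / 8) ^ k * dist x y := fun x y h =>
    h1 x y (h.mono (min_le_left _ _))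
  refine ⟨min ε₁ ε₂, lt_min hε₁ hε₂, ?_, ?_, hu, hs, ?_⟩
  · intro x y h
    exact squeeze_zero (fun _ => dist_nonneg) (hu x y h) (hlim _)
  · intro x y h
    exact squeeze_zero (fun _ => dist_nonneg) (hs x y h) (hlim _)
  · intro x y h3 h4
    have h5 := hs x y h3 1
    have h6 : S.URel (min ε₁ ε₂) (S.g x) (S.g y) := by
      intro k
      match k with
      | 0 => exact h3 1
      | k + 1 =>
        rw [Function.iterate_succ_apply, Function.iterate_succ_apply, Homeomorph.symm_apply_apply,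
          Homeomorph.symm_apply_apply]
        exact h4 k
    have h7 := hu _ _ h6 1
    simp only [Function.iterate_one, Homeomorph.symm_apply_apply, pow_one] at h5 h7
    have h8 : dist x y ≤ 0 := by
      have := dist_nonneg (x := x) (y := y)
      linarith
    exact dist_le_zero.mp h8

theorem Geo.mono {S : HypSys X E} {ε₀ ε : ℝ} (h : Geo S ε₀) (hε : 0 < ε) (hle : ε ≤ ε₀) :
    Geo S ε where
  pos := hε
  uasym := fun x y hxy => h.uasym x y (hxy.mono hle)
  sasym := fun x y hxy => h.sasym x y (hxy.mono hle)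
  ucontr := fun x y hxy => h.ucontr x y (hxy.mono hle)
  scontr := fun x y hxy => h.scontr x y (hxy.mono hle)
  uniq := fun x y h1 h2 => h.uniq x y (h1.mono hle) (h2.mono hle)

theorem Geo.URel_dist {S : HypSys X E} {ε₀ : ℝ} (h : Geo S ε₀) {x y : X} (hxy : S.URel ε₀ x y) :
    S.URel (dist x y) x y := fun k => by
  have h1 := h.ucontr x y hxy k
  have h2 : (1 / 8 : ℝ) ^ k ≤ 1 := pow_le_one₀ (by norm_num) (by norm_num)
  calc _ ≤ (1 / 8 : ℝ) ^ k * dist x y := h1
    _ ≤ 1 * dist x y := mul_le_mul_of_nonneg_right h2 dist_nonneg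
    _ = _ := one_mul _

theorem Geo.SRel_dist {S : HypSys X E} {ε₀ : ℝ} (h : Geo S ε₀) {x y : X} (hxy : S.SRel ε₀ x y) :
    S.SRel (dist x y) x y := fun k => by
  have h1 := h.scontr x y hxy k
  have h2 : (1 / 8 : ℝ) ^ k ≤ 1 := pow_le_one₀ (by norm_num) (by norm_num)
  calc _ ≤ (1 / 8 : ℝ) ^ k * dist x y := h1
    _ ≤ 1 * dist x y := mul_le_mul_of_nonneg_right h2 dist_nonneg
    _ = _ := one_mul _

/-- Local product structure, qualitative version. -/
theorem exists_bracket [CompactSpace X] (S : HypSys X E) (ε' : ℝ) (hε' : 0 < ε') :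
    ∃ ε > 0, ∀ x y : X, dist x y ≤ ε → ∃ w, S.SRel ε' x w ∧ S.URel ε' w y := by
  obtain ⟨ε₁, hε₁, h⟩ := S.local_product
  have hK : 0 < S.K := by linarith [S.one_le_K]
  refine ⟨min ε₁ (ε' / (9 * S.K)), lt_min hε₁ (by positivity), fun x y hxy => ?_⟩
  obtain ⟨w, h1, h2⟩ := h x y (hxy.trans (min_le_left _ _))
  have h3 : 9 * S.K * dist x y ≤ ε' := by
    have := hxy.trans (min_le_right _ _)
    rw [le_div_iff₀ (by positivity)] at this
    linarith
  exact ⟨w, h1.mono h3, h2.mono h3⟩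

/-- Existence of the fourth corner of a small rectangle. -/
theorem exists_corner [CompactSpace X] (S : HypSys X E) (ε' : ℝ) (hε' : 0 < ε') :
    ∃ ε > 0, ∀ x y z : X, S.SRel ε x y → S.URel ε x z → ∃ w, S.URel ε' y w ∧ S.SRel ε' z w := by
  obtain ⟨ε, hε, h⟩ := exists_bracket S ε' hε'
  refine ⟨ε / 2, by positivity, fun x y z hxy hxz => ?_⟩
  have h1 : dist z y ≤ ε := by
    have := dist_triangle z x y
    have := hxy.dist_le
    have := hxz.dist_le
    rw [dist_comm] at this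
    linarith
  obtain ⟨w, h2, h3⟩ := h z y h1
  exact ⟨w, h3.symm, h2⟩

/-- A forward close relation at time `-k` follows from closeness at times `-k, …, 0` and forward
closeness. -/
theorem SRel_back {S : HypSys X E} {ε : ℝ} {x y : X} (k : ℕ) (h : S.SRel ε x y)
    (h' : ∀ j ≤ k, dist (S.g.symm^[j] x) (S.g.symm^[j] y) ≤ ε) :
    S.SRel ε (S.g.symm^[k] x) (S.g.symm^[k] y) := by
  intro m
  rcases le_total m k with hm | hm
  · rw [iter_symm_iter_le S hm, iter_symm_iter_le S hm]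
    exact h' _ (by omega)
  · rw [iter_symm_iter_ge S hm, iter_symm_iter_ge S hm]
    exact h _

theorem SRel_fwd {S : HypSys X E} {ε : ℝ} {x y : X} (k : ℕ)
    (h : S.SRel ε (S.g.symm^[k] x) (S.g.symm^[k] y)) : S.SRel ε x y := by
  have := h.iter k
  rwa [iter_iter_symm, iter_iter_symm] at this

/-- Points of the same local stable leaf that are very close stay stably close at time `-k`. -/
theorem SRel_level [CompactSpace X] {S : HypSys X E} {ε₀ : ℝ} (h : Geo S ε₀) (k : ℕ) (ε : ℝ)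
    (hε : 0 < ε) : ∃ δ > 0, ∀ x y : X, S.SRel ε₀ x y → dist x y ≤ δ →
      S.SRel ε (S.g.symm^[k] x) (S.g.symm^[k] y) := by
  have huc : ∀ j : ℕ, ∃ δ > 0, ∀ x y : X, dist x y < δ →
      dist (S.g.symm^[j] x) (S.g.symm^[j] y) < ε := by
    intro j
    have := CompactSpace.uniformContinuous_of_continuous (S.g.symm.continuous.iterate j)
    obtain ⟨δ, hδ, h1⟩ := Metric.uniformContinuous_iff.mp this ε hε
    exact ⟨δ, hδ, fun x y hxy => h1 hxy⟩
  have hall : ∀ k : ℕ, ∃ δ > 0, ∀ x y : X, dist x y < δ → ∀ j ≤ k,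
      dist (S.g.symm^[j] x) (S.g.symm^[j] y) < ε := by
    intro k
    induction k with
    | zero =>
      obtain ⟨δ, hδ, h1⟩ := huc 0
      refine ⟨δ, hδ, fun x y hxy j hj => ?_⟩
      have : j = 0 := by omega
      subst this
      exact h1 x y hxy
    | succ k ih =>
      obtain ⟨δ, hδ, h1⟩ := ih
      obtain ⟨δ', hδ', h2⟩ := huc (k + 1)
      refine ⟨min δ δ', lt_min hδ hδ', fun x y hxy j hj => ?_⟩
      rcases Nat.lt_or_ge j (k + 1) with h3 | h3
      · exact h1 x y (lt_of_lt_of_le hxy (min_le_left _ _)) j (by omega)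
      · have : j = k + 1 := by omega
        subst this
        exact h2 x y (lt_of_lt_of_le hxy (min_le_right _ _))
  obtain ⟨δ, hδ, h1⟩ := hall k
  refine ⟨min (δ / 2) ε, lt_min (by positivity) hε, fun x y hxy hd => ?_⟩
  refine SRel_back k ((h.SRel_dist hxy).mono (hd.trans (min_le_right _ _))) (fun j hj => ?_)
  exact (h1 x y (lt_of_le_of_lt (hd.trans (min_le_left _ _)) (by linarith)) j hj).le

end geo

section lin0

variable {S : HypSys X E}

theorem Lin0.Lc_iter (L : Lin0 S) {x y : X} (h : UAsym S x y) (n : ℕ) :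
    L.Lc (S.g^[n] x) (S.g^[n] y) = Dn S n x (L.Lc x y) := by
  induction n with
  | zero => rfl
  | succ n ih =>
    rw [Function.iterate_succ_apply', Function.iterate_succ_apply', L.Lc_equi _ _ (h.iter n), ih]
    rfl

theorem Lin0.Lc_back (L : Lin0 S) {x y : X} (h : UAsym S x y) (n : ℕ) :
    L.Lc (S.g.symm^[n] x) (S.g.symm^[n] y) = Dn S.symm n x (L.Lc x y) := by
  have h1 := L.Lc_iter (h.symm_iter n) n
  rw [iter_iter_symm, iter_iter_symm] at h1
  rw [h1]
  have h2 := Dn_symm_Dn S n (S.g.symm^[n] x) (L.Lc_mem _ _ (h.symm_iter n))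
  rw [iter_iter_symm] at h2
  exact h2.symm

theorem Lin0.τ_iter (L : Lin0 S) {x y : X} (h : UAsym S x y) (n : ℕ) {v : E} (hv : v ∈ S.Vu x) :
    L.τ (S.g^[n] x) (S.g^[n] y) (Dn S n x v) = Dn S n y (L.τ x y v) := by
  induction n with
  | zero => rfl
  | succ n ih =>
    rw [Function.iterate_succ_apply', Function.iterate_succ_apply', Dn_succ,
      L.τ_equi _ _ (h.iter n) _ (Dn_mem S n x hv), ih]
    rfl

theorem Lin0.τ_back (L : Lin0 S) {x y : X} (h : UAsym S x y) (n : ℕ) {v : E} (hv : v ∈ S.Vu x) :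
    L.τ (S.g.symm^[n] x) (S.g.symm^[n] y) (Dn S.symm n x v) = Dn S.symm n y (L.τ x y v) := by
  have h1 := L.τ_iter (h.symm_iter n) n (Dn_symm_mem S n x hv)
  rw [iter_iter_symm, iter_iter_symm, Dn_Dn_symm S n x hv] at h1
  rw [h1]
  have h2 := Dn_symm_Dn S n (S.g.symm^[n] y)
    (L.τ_mem _ _ (h.symm_iter n) _ (Dn_symm_mem S n x hv))
  rw [iter_iter_symm] at h2
  exact h2.symm

theorem Lin0.H_iter (L : Lin0 S) {x y : X} (h : SAsym S x y) (n : ℕ) {v : E} (hv : v ∈ S.Vu x) :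
    L.H (S.g^[n] x) (S.g^[n] y) (Dn S n x v) = Dn S n y (L.H x y v) := by
  induction n with
  | zero => rfl
  | succ n ih =>
    rw [Function.iterate_succ_apply', Function.iterate_succ_apply', Dn_succ,
      L.H_equi _ _ (h.iter n) _ (Dn_mem S n x hv), ih]
    rfl

theorem Lin0.H_back (L : Lin0 S) {x y : X} (h : SAsym S x y) (n : ℕ) {v : E} (hv : v ∈ S.Vu x) :
    L.H (S.g.symm^[n] x) (S.g.symm^[n] y) (Dn S.symm n x v) = Dn S.symm n y (L.H x y v) := by
  have h1 := L.H_iter (h.symm_iter n) n (Dn_symm_mem S n x hv)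
  rw [iter_iter_symm, iter_iter_symm, Dn_Dn_symm S n x hv] at h1
  rw [h1]
  have h2 := Dn_symm_Dn S n (S.g.symm^[n] y)
    (L.H_mem _ _ (h.symm_iter n) _ (Dn_symm_mem S n x hv))
  rw [iter_iter_symm] at h2
  exact h2.symm

end lin0

end Pool.Agent.H779R2.An
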