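import Pool.Agent.H66.L.S8.H721R2.Subdiv

set_option autoImplicit false

namespace Pool.Agent.H779R2.An

open Pool.Agent.H721R2 Filter Topology
open scoped BigOperators

variable {X E : Type*} [MetricSpace X] [NormedAddCommGroup E] [NormedSpace ℝ E]

/-- Iterated derivative `D_{g^{n-1}x} ∘ ⋯ ∘ D_x`.  (Backward iterates: `Dn S.symm n x`.) -/
def Dn (S : HypSys X E) : ℕ → X → (E →ₗ[ℝ] E)
  | 0, _ => LinearMap.id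
  | n + 1, x => (S.D (S.g^[n] x)).comp (Dn S n x)

/-- Uniform quasiconformality on the unstable bundle (stable bundle: `QC S.symm K`). -/
def QC (S : HypSys X E) (K : ℝ) : Prop :=
  ∀ (n : ℕ) (x : X), ∀ v ∈ S.Vu x, ∀ w ∈ S.Vu x,
    ‖Dn S n x v‖ * ‖w‖ ≤ K * (‖Dn S n x w‖ * ‖v‖)

/-- Backward asymptotic points (same global unstable leaf). -/
def UAsym (S : HypSys X E) (x y : X) : Prop :=
  Tendsto (fun n : ℕ => dist (S.g.symm^[n] x) (S.g.symm^[n] y)) atTop (𝓝 0)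

/-- Forward asymptotic points (same global stable leaf). -/
def SAsym (S : HypSys X E) (x y : X) : Prop :=
  Tendsto (fun n : ℕ => dist (S.g^[n] x) (S.g^[n] y)) atTop (𝓝 0)

/-- The second order local facts (coming from a `C²` diffeomorphism). -/
structure Quad (S : HypSys X E) (Q r : ℝ) : Prop where
  Q_pos : 0 < Q
  r_pos : 0 < r
  q1 : ∀ x y, dist x y < r → ∃ s ∈ S.Vs x, ∃ u ∈ S.Vu x,
    ‖S.e y - S.e x - (s + u)‖ ≤ Q * dist x y ^ 2 ∧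
    ‖S.e (S.g y) - S.e (S.g x) - S.D x (s + u)‖ ≤ Q * dist x y ^ 2
  q1' : ∀ x y, dist x y < r → ∃ s ∈ S.Vs x, ∃ u ∈ S.Vu x,
    ‖S.e y - S.e x - (s + u)‖ ≤ Q * dist x y ^ 2 ∧
    ‖S.e (S.g.symm y) - S.e (S.g.symm x) - S.D' x (s + u)‖ ≤ Q * dist x y ^ 2
  q2 : ∀ x y, dist x y < r → ∀ s ∈ S.Vs x, ∀ u ∈ S.Vu x, ∃ s' ∈ S.Vs y, ∃ u' ∈ S.Vu y,
    ‖(s + u) - (s' + u')‖ ≤ Q * dist x y * ‖s + u‖ ∧
    ‖S.D x (s + u) - S.D y (s' + u')‖ ≤ Q * dist x y * ‖s + u‖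
  q2' : ∀ x y, dist x y < r → ∀ s ∈ S.Vs x, ∀ u ∈ S.Vu x, ∃ s' ∈ S.Vs y, ∃ u' ∈ S.Vu y,
    ‖(s + u) - (s' + u')‖ ≤ Q * dist x y * ‖s + u‖ ∧
    ‖S.D' x (s + u) - S.D' y (s' + u')‖ ≤ Q * dist x y * ‖s + u‖

theorem Quad.symm {S : HypSys X E} {Q r : ℝ} (h : Quad S Q r) : Quad S.symm Q r where
  Q_pos := h.Q_pos
  r_pos := h.r_pos
  q1 := fun x y hxy => by
    obtain ⟨s, hs, u, hu, h1, h2⟩ := h.q1' x y hxy
    exact ⟨u, hu, s, hs, by rw [add_comm u s]; exact h1, by rw [add_comm u s]; exact h2⟩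
  q1' := fun x y hxy => by
    obtain ⟨s, hs, u, hu, h1, h2⟩ := h.q1 x y hxy
    exact ⟨u, hu, s, hs, by rw [add_comm u s]; exact h1, by rw [add_comm u s]; exact h2⟩
  q2 := fun x y hxy u hu s hs => by
    obtain ⟨s', hs', u', hu', h1, h2⟩ := h.q2' x y hxy s hs u hu
    exact ⟨u', hu', s', hs', by rw [add_comm u s, add_comm u' s']; exact h1,
      by rw [add_comm u s, add_comm u' s']; exact h2⟩
  q2' := fun x y hxy u hu s hs => by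
    obtain ⟨s', hs', u', hu', h1, h2⟩ := h.q2 x y hxy s hs u hu
    exact ⟨u', hu', s', hs', by rw [add_comm u s, add_comm u' s']; exact h1,
      by rw [add_comm u s, add_comm u' s']; exact h2⟩

/-- A small scale `ε₀` at which the basic geometric facts hold. -/
structure Geo (S : HypSys X E) (ε₀ : ℝ) : Prop where
  pos : 0 < ε₀
  uasym : ∀ x y, S.URel ε₀ x y → UAsym S x y
  sasym : ∀ x y, S.SRel ε₀ x y → SAsym S x y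
  ucontr : ∀ x y, S.URel ε₀ x y → ∀ k : ℕ,
    dist (S.g.symm^[k] x) (S.g.symm^[k] y) ≤ (1 / 8) ^ k * dist x y
  scontr : ∀ x y, S.SRel ε₀ x y → ∀ k : ℕ,
    dist (S.g^[k] x) (S.g^[k] y) ≤ (1 / 8) ^ k * dist x y
  uniq : ∀ x y, S.SRel ε₀ x y → S.URel ε₀ x y → x = y

/-- Existence of (local, unstable) linearizing coordinates. -/
def HasLc (S : HypSys X E) : Prop :=
  ∃ Lc : X → X → E,
    (∀ x y, UAsym S x y → Lc x y ∈ S.Vu x) ∧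
    (∀ x y, UAsym S x y → Lc (S.g x) (S.g y) = S.D x (Lc x y)) ∧
    (∀ η > 0, ∃ ε > 0, ∀ x y, S.URel ε x y → ‖Lc x y - (S.e y - S.e x)‖ ≤ η * dist x y)

/-- Existence of the transport `τ x y : Vu x → Vu y` along unstable leaves. -/
def HasTau (S : HypSys X E) : Prop :=
  ∃ τ : X → X → E →ₗ[ℝ] E,
    (∀ x y, UAsym S x y → ∀ v ∈ S.Vu x, τ x y v ∈ S.Vu y) ∧
    (∀ x y, UAsym S x y → ∀ v ∈ S.Vu x, τ (S.g x) (S.g y) (S.D x v) = S.D y (τ x y v)) ∧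
    (∀ η > 0, ∃ ε > 0, ∀ x y, S.URel ε x y → ∀ v ∈ S.Vu x, ‖τ x y v - v‖ ≤ η * ‖v‖)

/-- Existence of the linear stable holonomy `H x y : Vu x → Vu y`. -/
def HasHol (S : HypSys X E) : Prop :=
  ∃ H : X → X → E →ₗ[ℝ] E,
    (∀ x y, SAsym S x y → ∀ v ∈ S.Vu x, H x y v ∈ S.Vu y) ∧
    (∀ x y, SAsym S x y → ∀ v ∈ S.Vu x, H (S.g x) (S.g y) (S.D x v) = S.D y (H x y v)) ∧
    (∀ η > 0, ∃ ε > 0, ∀ x y, S.SRel ε x y → ∀ v ∈ S.Vu x, ‖H x y v - v‖ ≤ η * ‖v‖)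

/-- The primary linearization data. -/
structure Lin0 (S : HypSys X E) where
  K : ℝ
  qc : QC S K
  Lc : X → X → E
  Lc_mem : ∀ x y, UAsym S x y → Lc x y ∈ S.Vu x
  Lc_equi : ∀ x y, UAsym S x y → Lc (S.g x) (S.g y) = S.D x (Lc x y)
  Lc_near : ∀ η > 0, ∃ ε > 0, ∀ x y, S.URel ε x y → ‖Lc x y - (S.e y - S.e x)‖ ≤ η * dist x y
  τ : X → X → E →ₗ[ℝ] E
  τ_mem : ∀ x y, UAsym S x y → ∀ v ∈ S.Vu x, τ x y v ∈ S.Vu y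
  τ_equi : ∀ x y, UAsym S x y → ∀ v ∈ S.Vu x, τ (S.g x) (S.g y) (S.D x v) = S.D y (τ x y v)
  τ_near : ∀ η > 0, ∃ ε > 0, ∀ x y, S.URel ε x y → ∀ v ∈ S.Vu x, ‖τ x y v - v‖ ≤ η * ‖v‖
  H : X → X → E →ₗ[ℝ] E
  H_mem : ∀ x y, SAsym S x y → ∀ v ∈ S.Vu x, H x y v ∈ S.Vu y
  H_equi : ∀ x y, SAsym S x y → ∀ v ∈ S.Vu x, H (S.g x) (S.g y) (S.D x v) = S.D y (H x y v)
  H_near : ∀ η > 0, ∃ ε > 0, ∀ x y, S.SRel ε x y → ∀ v ∈ S.Vu x, ‖H x y v - v‖ ≤ η * ‖v‖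

/-- Primary data, a good scale `ε₀`, and the first derived properties. -/
structure Lin1 (S : HypSys X E) extends Lin0 S where
  ε₀ : ℝ
  geo : Geo S ε₀
  Lc_le : ∀ x y, S.URel ε₀ x y → ‖Lc x y‖ ≤ 2 * dist x y
  dist_le : ∀ x y, S.URel ε₀ x y → dist x y ≤ 2 * ‖Lc x y‖
  τ_le : ∀ x y, S.URel ε₀ x y → ∀ v ∈ S.Vu x, ‖τ x y v‖ ≤ 2 * ‖v‖
  le_τ : ∀ x y, S.URel ε₀ x y → ∀ v ∈ S.Vu x, ‖v‖ ≤ 2 * ‖τ x y v‖
  H_le : ∀ x y, S.SRel ε₀ x y → ∀ v ∈ S.Vu x, ‖H x y v‖ ≤ 2 * ‖v‖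
  le_H : ∀ x y, S.SRel ε₀ x y → ∀ v ∈ S.Vu x, ‖v‖ ≤ 2 * ‖H x y v‖
  Lc_self : ∀ x, Lc x x = 0
  τ_self : ∀ x, ∀ v ∈ S.Vu x, τ x x v = v
  τ_comp : ∀ x y z, UAsym S x y → UAsym S y z → ∀ v ∈ S.Vu x, τ y z (τ x y v) = τ x z v
  base : ∀ x y z, UAsym S x y → UAsym S x z → Lc y z = τ x y (Lc x z - Lc x y)
  H_self : ∀ x, ∀ v ∈ S.Vu x, H x x v = v
  H_comp : ∀ x y z, SAsym S x y → SAsym S y z → ∀ v ∈ S.Vu x, H y z (H x y v) = H x z v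

/-- The linearization package. -/
structure Flat (S : HypSys X E) extends Lin1 S where
  inj : ∀ x y z, UAsym S x y → UAsym S x z → Lc x y = Lc x z → y = z
  surj : ∀ ε > 0, ∃ ρ > 0, ∀ x, ∀ v ∈ S.Vu x, ‖v‖ ≤ ρ → ∃ y, S.URel ε x y ∧ Lc x y = v
  small : ∀ ε > 0, ∃ ρ > 0, ∀ x y, UAsym S x y → ‖Lc x y‖ ≤ ρ → S.URel ε x y

/-- An invariant continuous complex structure on the unstable bundle. -/
structure CJ0 (S : HypSys X E) where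
  J : X → E →ₗ[ℝ] E
  J_mem : ∀ x, ∀ v ∈ S.Vu x, J x v ∈ S.Vu x
  J_sq : ∀ x, ∀ v ∈ S.Vu x, J x (J x v) = -v
  J_D : ∀ x, ∀ v ∈ S.Vu x, S.D x (J x v) = J (S.g x) (S.D x v)
  J_cont : ∀ η > 0, ∃ r > 0, ∀ x y, dist x y < r → ∀ v ∈ S.Vu x, ∀ w ∈ S.Vu y,
    ‖v - w‖ ≤ r * ‖v‖ → ‖J x v - J y w‖ ≤ η * ‖v‖

/-- The complex structure commutes with `τ` and `H`. -/
structure CJ {S : HypSys X E} (F : Flat S) where
  C : ℝ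
  J : X → E →ₗ[ℝ] E
  J_mem : ∀ x, ∀ v ∈ S.Vu x, J x v ∈ S.Vu x
  J_sq : ∀ x, ∀ v ∈ S.Vu x, J x (J x v) = -v
  J_le : ∀ x, ∀ v ∈ S.Vu x, ‖J x v‖ ≤ C * ‖v‖
  J_τ : ∀ x y, UAsym S x y → ∀ v ∈ S.Vu x, F.τ x y (J x v) = J y (F.τ x y v)
  J_H : ∀ x y, SAsym S x y → ∀ v ∈ S.Vu x, F.H x y (J x v) = J y (F.H x y v)

/-- A choice of a unit vector in each unstable space. -/
structure UV (S : HypSys X E) where
  b : X → E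
  mem : ∀ x, b x ∈ S.Vu x
  norm : ∀ x, ‖b x‖ = 1

/-- The size at time `-k` of the unit vector at `y`. -/
noncomputable def om (S : HypSys X E) (B : UV S) (k : ℕ) (y : X) : ℝ := ‖Dn S.symm k y (B.b y)‖

/-- `R` is a closed nonempty invariant set with empty interior which is saturated by stable
leaves. -/
structure MinR (S : HypSys X E) (R : Set X) : Prop where
  closed : IsClosed R
  nonempty : R.Nonempty
  map : ∀ x ∈ R, S.g x ∈ R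
  map' : ∀ x ∈ R, S.g.symm x ∈ R
  sat : ∀ x ∈ R, ∀ y, SAsym S x y → y ∈ R
  intr : interior R = ∅

section props

variable {S : HypSys X E}

/-- Centre differentiability of the stable holonomy (with derivative `H`). -/
def CDProp (F : Flat S) : Prop :=
  ∃ ε > 0, ∀ w w', S.SRel ε w w' → ∀ η > 0, ∃ ρ > 0, ∀ q q', S.URel ε w q → ‖F.Lc w q‖ ≤ ρ →
    S.SRel ε q q' → S.URel ε w' q' →
    ‖F.Lc w' q' - F.H w w' (F.Lc w q)‖ ≤ η * ‖F.Lc w q‖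

/-- Quadratic estimate for the stable holonomy. -/
def QEProp (F : Flat S) : Prop :=
  ∃ C > 0, ∃ ε > 0, ∀ z z' p p', S.SRel ε z z' → S.URel ε z p → S.SRel ε p p' →
    S.URel ε z' p' → ‖F.Lc z' p' - F.H z z' (F.Lc z p)‖ ≤ C * ‖F.Lc z p‖ ^ 2

/-- Quadratic estimate at level `k`: the two points are still close at time `-k`. -/
def QEkProp (F : Flat S) (B : UV S) : Prop :=
  ∃ C > 0, ∃ ε > 0, ∀ (k : ℕ) (y y' q q' : X),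
    S.SRel ε (S.g.symm^[k] y) (S.g.symm^[k] y') → S.URel ε y q → S.URel ε y' q' →
    S.SRel ε q q' →
    ‖F.Lc y' q' - F.H y y' (F.Lc y q)‖ ≤ C * om S B k y * ‖F.Lc y q‖ ^ 2

/-- The trace of `R` on a local unstable leaf, in linearizing coordinates. -/
def ES (F : Flat S) (R : Set X) {D : ℕ} (t : X) (A : EuclideanSpace ℝ (Fin D) →ₗᵢ[ℝ] E)
    (ε ρ : ℝ) : Set (EuclideanSpace ℝ (Fin D)) :=
  {ζ | ‖ζ‖ ≤ ρ ∧ ∃ c ∈ R, S.URel ε t c ∧ F.Lc t c = A ζ}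

/-- `A` is a linear isometry onto the subspace `V`. -/
def Onto {D : ℕ} (A : EuclideanSpace ℝ (Fin D) →ₗᵢ[ℝ] E) (V : Submodule ℝ E) : Prop :=
  (∀ ζ, A ζ ∈ V) ∧ ∀ v ∈ V, ∃ ζ, A ζ = v

/-- The traces of `R` on small unstable leaves are closed and Lebesgue null. -/
def NullProp (F : Flat S) (R : Set X) (D : ℕ) : Prop :=
  ∃ ε > 0, ∃ ρ > 0, ∀ ε' ρ' : ℝ, ε' ≤ ε → ρ' ≤ ρ → ∀ (t : X)
    (A : EuclideanSpace ℝ (Fin D) →ₗᵢ[ℝ] E), Onto A (S.Vu t) →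
    IsClosed (ES F R t A ε' ρ') ∧ MeasureTheory.volume (ES F R t A ε' ρ') = 0

/-- Sums of `om ^ D` over sets of points of a plaque of `R` separated at time `-k` tend to `0`. -/
def SumProp (S : HypSys X E) (B : UV S) (R : Set X) (D : ℕ) : Prop :=
  ∀ κ > 0, ∃ ρ > 0, ∀ θ > 0, ∃ N : ℕ, ∀ k, N ≤ k → ∀ x ∈ R, ∀ A : Finset X,
    (∀ y ∈ A, S.SRel ρ x y) →
    (∀ y ∈ A, ∀ y' ∈ A, y ≠ y' → ¬ S.SRel κ (S.g.symm^[k] y) (S.g.symm^[k] y')) →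
    ∑ y ∈ A, om S B k y ^ D ≤ θ

/-- Chains along stable plaques of `R` with small line sums. -/
def LineProp (S : HypSys X E) (B : UV S) (R : Set X) : Prop :=
  ∀ ε > 0, ∀ ρ > 0, ∃ ρ' > 0, ∀ x ∈ R, ∀ x', S.SRel ρ' x x' → ∀ δ > 0, ∃ (k m : ℕ) (c : ℕ → X),
    (∀ i ≤ m, S.SRel ρ x (c i)) ∧ dist x (c 0) ≤ δ ∧ dist x' (c m) ≤ δ ∧
    (∀ i < m, S.SRel ε (S.g.symm^[k] (c i)) (S.g.symm^[k] (c (i + 1)))) ∧
    ∑ i ∈ Finset.range m, om S B k (c i) ≤ δ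

/-- The stable holonomy along leaves of `R` is linear. -/
def LinProp (F : Flat S) (R : Set X) : Prop :=
  ∃ ε > 0, ∀ x ∈ R, ∀ x' p p', S.SRel ε x x' → S.URel ε x p → S.SRel ε p p' → S.URel ε x' p' →
    F.Lc x' p' = F.H x x' (F.Lc x p)

/-- Linearity of the holonomy, with the base point and the point of `R` exchanged. -/
def LinProp' (F : Flat S) (R : Set X) : Prop :=
  ∃ ε > 0, ∀ y ∈ R, ∀ y' w w', S.SRel ε y y' → S.URel ε y w → S.SRel ε w w' → S.URel ε y' w' →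
    F.Lc w' y' = F.H w w' (F.Lc w y)

/-- Stable segments, finely subdivided at time `-n`. -/
def SegProp (S : HypSys X E) : Prop :=
  ∀ ε > 0, ∃ ε' > 0, ∀ v v', S.SRel ε' v v' → ∀ n : ℕ, ∀ ε'' > 0, ∃ (m : ℕ) (c : ℕ → X),
    c 0 = v ∧ c m = v' ∧ (∀ i ≤ m, S.SRel ε v (c i)) ∧
    ∀ i < m, S.SRel ε'' (S.g.symm^[n] (c i)) (S.g.symm^[n] (c (i + 1)))

/-- Coordinate cells in stable plaques at level `k`. -/
def CellProp (S : HypSys X E) (d : ℕ) : Prop :=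
  ∀ ε > 0, ∃ κ > 0, ∀ ρ > 0, ∃ ρ₁ > 0, ρ₁ ≤ 1 ∧ ∃ ρ' > 0, ∀ (x : X) (k : ℕ),
    ∃ (ψ : EuclideanSpace ℝ (Fin d) → X) (rad : EuclideanSpace ℝ (Fin d) → ℝ) (r₀ : ℝ),
      0 < r₀ ∧
      (∀ a, ‖a‖ ≤ ρ₁ → S.SRel ρ x (ψ a) ∧ r₀ ≤ rad a ∧ rad a ≤ 1) ∧
      (∀ a a', ‖a‖ ≤ ρ₁ → ‖a'‖ ≤ ρ₁ → dist (ψ a) (ψ a') ≤ 8 * ‖a - a'‖) ∧
      ψ 0 = x ∧
      (∀ x', S.SRel ρ' x x' → ∃ b, ‖b‖ ≤ ρ₁ / 4 ∧ ψ b = x') ∧
      (∀ a a', ‖a‖ ≤ ρ₁ → ‖a'‖ ≤ ρ₁ → ‖a - a'‖ ≤ rad a →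
        S.SRel ε (S.g.symm^[k] (ψ a)) (S.g.symm^[k] (ψ a'))) ∧
      (∀ a a', ‖a‖ ≤ ρ₁ → ‖a'‖ ≤ ρ₁ → rad a / 5 < ‖a - a'‖ →
        ¬ S.SRel κ (S.g.symm^[k] (ψ a)) (S.g.symm^[k] (ψ a')))

end props

end Pool.Agent.H779R2.An
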